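import Pool.Agent.V5helper33.EHS.Stm3

/-!
# Project EHS, job PAR2: choice of the parameters (adapted from `V5helper22/EHS/PAR.lean`)
-/

set_option autoImplicit false

namespace Pool.Agent.V5helper29.EHS

open Finset MeasureTheory ProbabilityTheory Filter
open scoped ENNReal Topology
open Pool.Agent.V5helper33.EHS

theorem t_PAR2 : S_PAR2 := by
  intro C0 A hC0
  obtain ⟨M, hM⟩ : ∃ M : ℕ, M = (2 * (C0 + 6 + A) + 8 + C0) * C0 * (C0 + 6 + A) + 1 := ⟨_, rfl⟩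
  have hM0 : (0 : ℝ) < M := by
    have : 0 < M := by omega
    exact_mod_cast this
  refine ⟨25 * M, by positivity, ?_⟩
  have hL : Tendsto (fun x : ℕ => Real.log (x : ℝ)) atTop atTop :=
    Real.tendsto_log_atTop.comp tendsto_natCast_atTop_atTop
  have hLL : Tendsto (fun x : ℕ => Real.log (Real.log (x : ℝ))) atTop atTop :=
    Real.tendsto_log_atTop.comp hL
  filter_upwards [hLL.eventually (eventually_ge_atTop 1), hL.eventually (eventually_gt_atTop 1),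
    eventually_gt_atTop 0] with x h1 h2 hx
  obtain ⟨L, hLx⟩ : ∃ L : ℝ, L = Real.log x := ⟨_, rfl⟩
  obtain ⟨G, hG⟩ : ∃ G : ℝ, G = GG (25 * M) x := ⟨_, rfl⟩
  rw [← hG]
  rw [GG] at hG
  rw [← hLx] at h1 h2 hG
  rw [← hLx]
  have hL0 : 0 < L := by linarith
  obtain ⟨n, hn⟩ : ∃ n : ℕ, n = ⌈L⌉₊ := ⟨_, rfl⟩
  have hnL : L ≤ n := by rw [hn]; exact Nat.le_ceil L
  have hnL' : (n : ℝ) < L + 1 := by rw [hn]; exact Nat.ceil_lt_add_one hL0.le
  have hn1 : 1 < n := by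
    have : (1 : ℝ) < n := by linarith
    exact_mod_cast this
  obtain ⟨k, hk⟩ : ∃ k : ℕ, k = Nat.clog 2 n := ⟨_, rfl⟩
  have hk1 : L ≤ 2 ^ k := by
    have h3 : n ≤ 2 ^ k := by rw [hk]; exact Nat.le_pow_clog (by norm_num) n
    have h4 : (n : ℝ) ≤ 2 ^ k := by exact_mod_cast h3
    linarith
  have hk2 : (2 : ℝ) ^ k ≤ 4 * L := by
    have h3 : 2 ^ (Nat.clog 2 n).pred < n := Nat.pow_pred_clog_lt_self (by norm_num) hn1
    rw [← hk] at h3
    have h4 : (2 : ℝ) ^ k.pred < n := by exact_mod_cast h3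
    have h5 : (2 : ℝ) ^ k ≤ 2 * 2 ^ k.pred := by
      rcases k with _ | k
      · norm_num
      · rw [Nat.pred_succ, pow_succ]; linarith
    linarith
  have hkl : (k : ℝ) + 1 ≤ 5 * Real.log L := by
    have h3 : Real.log ((2 : ℝ) ^ k) ≤ Real.log (4 * L) := Real.log_le_log (by positivity) hk2
    have h4 : Real.log (4 : ℝ) = 2 * Real.log 2 := by
      rw [show (4 : ℝ) = 2 ^ 2 by norm_num, Real.log_pow]
      norm_num
    rw [Real.log_pow, Real.log_mul (by norm_num) hL0.ne', h4] at h3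
    have h5 : (1 : ℝ) / 2 ≤ Real.log 2 := by
      have := Real.log_two_gt_d9
      linarith
    have h6 : (k : ℝ) ≤ 2 + 2 * Real.log L := by
      by_contra h7
      push Not at h7
      have h8 : (0 : ℝ) < k - 2 := by linarith
      nlinarith
    linarith
  obtain ⟨b, hb⟩ : ∃ b : ℕ, b = C0 + 6 + A * k := ⟨_, rfl⟩
  obtain ⟨e, he⟩ : ∃ e : ℕ, e = 2 * b + 3 * k + 5 + C0 := ⟨_, rfl⟩
  obtain ⟨u, hu⟩ : ∃ u : ℕ, u = e * (C0 * b) := ⟨_, rfl⟩
  have hb1 : b ≤ (C0 + 6 + A) * (k + 1) := by rw [hb]; nlinarith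
  have he1 : e ≤ (2 * (C0 + 6 + A) + 8 + C0) * (k + 1) := by rw [he]; nlinarith
  have hu1 : u + 1 ≤ M * (k + 1) ^ 2 := by
    have h3 : u ≤ ((2 * (C0 + 6 + A) + 8 + C0) * (k + 1)) * (C0 * ((C0 + 6 + A) * (k + 1))) := by
      rw [hu]
      exact Nat.mul_le_mul he1 (Nat.mul_le_mul le_rfl hb1)
    rw [hM]
    nlinarith [Nat.zero_le k]
  have hmain : (2 : ℝ) ^ u + 1 ≤ G := by
    rw [hG]
    have h3 : ((u + 1 : ℕ) : ℝ) ≤ 25 * M * Real.log L ^ 2 := by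
      calc ((u + 1 : ℕ) : ℝ) ≤ ((M * (k + 1) ^ 2 : ℕ) : ℝ) := by exact_mod_cast hu1
        _ = M * ((k : ℝ) + 1) ^ 2 := by push_cast; ring
        _ ≤ M * (5 * Real.log L) ^ 2 :=
            mul_le_mul_of_nonneg_left (pow_le_pow_left₀ (by positivity) hkl 2) hM0.le
        _ = 25 * M * Real.log L ^ 2 := by ring
    calc (2 : ℝ) ^ u + 1 ≤ 2 ^ (u + 1) := by
          rw [pow_succ]
          have : (1 : ℝ) ≤ 2 ^ u := one_le_pow₀ (by norm_num)
          linarith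
      _ ≤ (Real.exp 1) ^ (u + 1) := by
          refine pow_le_pow_left₀ (by norm_num) ?_ _
          have := Real.add_one_le_exp (1 : ℝ)
          linarith
      _ = Real.exp ((u + 1 : ℕ) : ℝ) := by
          rw [← Real.exp_nat_mul, mul_one]
      _ ≤ Real.exp (25 * M * Real.log L ^ 2) := Real.exp_le_exp.2 h3
  have hb6 : 6 ≤ b := by rw [hb]; omega
  have hCb : 6 ≤ C0 * b := by nlinarith
  have hu6 : e * 6 ≤ u := by rw [hu]; exact Nat.mul_le_mul le_rfl hCb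
  refine ⟨b, 2 ^ e, ?_, ?_, ?_, ?_, ?_, ?_, ?_, ?_⟩
  · rw [hb]; omega
  · have h3 : C0 < 2 ^ C0 := Nat.lt_two_pow_self
    have h4 : 2 ^ C0 ≤ 2 ^ e := Nat.pow_le_pow_right (by norm_num) (by omega)
    omega
  · have h3 : b < 2 ^ b := Nat.lt_two_pow_self
    have h4 : 2 ^ b ≤ 2 ^ e := Nat.pow_le_pow_right (by norm_num) (by omega)
    omega
  · rw [← pow_mul, ← hu]
    push_cast
    linarith
  · -- (1/2)^b
    have h3 : (1 / 2 : ℝ) ^ b = ((2 : ℝ) ^ b)⁻¹ := by rw [one_div, inv_pow]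
    have h4 : 64 * L ^ A ≤ (2 : ℝ) ^ b := by
      calc 64 * L ^ A ≤ 64 * (2 ^ k) ^ A := by
            refine mul_le_mul_of_nonneg_left (pow_le_pow_left₀ hL0.le hk1 A) (by norm_num)
        _ = 2 ^ (6 + A * k) := by rw [pow_add, ← pow_mul, mul_comm k A]; norm_num
        _ ≤ 2 ^ b := pow_le_pow_right₀ (by norm_num) (by omega)
    have hLA : 0 < L ^ A := pow_pos hL0 A
    rw [h3]
    have h5 : ((2 : ℝ) ^ b)⁻¹ ≤ (64 * L ^ A)⁻¹ := inv_anti₀ (by positivity) h4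
    rw [mul_inv] at h5
    have h6 : 0 < (L ^ A)⁻¹ := inv_pos.2 hLA
    norm_num at h5 ⊢
    linarith
  · have h3 : (1 / 2 : ℝ) ^ b = ((2 : ℝ) ^ b)⁻¹ := by rw [one_div, inv_pow]
    have h4 : 32 * L ^ 3 * ((2 : ℝ) ^ b) ^ 2 ≤ ((2 ^ e : ℕ) : ℝ) := by
      push_cast
      calc 32 * L ^ 3 * ((2 : ℝ) ^ b) ^ 2 ≤ 32 * (2 ^ k) ^ 3 * ((2 : ℝ) ^ b) ^ 2 := by
            refine mul_le_mul_of_nonneg_right ?_ (by positivity)
            exact mul_le_mul_of_nonneg_left (pow_le_pow_left₀ hL0.le hk1 3) (by norm_num)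
        _ = 2 ^ (5 + k * 3 + b * 2) := by
            rw [pow_add, pow_add, ← pow_mul, ← pow_mul]; norm_num
        _ ≤ 2 ^ e := pow_le_pow_right₀ (by norm_num) (by omega)
    rw [h3]
    have hB : (0 : ℝ) < 2 ^ b := by positivity
    have h5 : (4 * ((2 : ℝ) ^ b)⁻¹) ^ 2 * ((2 ^ e : ℕ) : ℝ) * (1 / (2 * L)) ^ 2 / 16 =
        ((2 ^ e : ℕ) : ℝ) / (4 * L ^ 2 * ((2 : ℝ) ^ b) ^ 2) := by
      field_simp
      ring
    rw [h5, le_div_iff₀ (by positivity)]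
    calc 6 * L * (4 * L ^ 2 * ((2 : ℝ) ^ b) ^ 2) = 24 * L ^ 3 * ((2 : ℝ) ^ b) ^ 2 := by ring
      _ ≤ 32 * L ^ 3 * ((2 : ℝ) ^ b) ^ 2 := by
          refine mul_le_mul_of_nonneg_right ?_ (by positivity)
          exact mul_le_mul_of_nonneg_right (by norm_num) (by positivity)
      _ ≤ _ := h4
  · have h4 : ((2 ^ e : ℕ) : ℝ) * (2 * L) ≤ 2 ^ u := by
      push_cast
      calc (2 : ℝ) ^ e * (2 * L) ≤ 2 ^ e * (2 * 2 ^ k) := by
            refine mul_le_mul_of_nonneg_left ?_ (by positivity)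
            linarith
        _ = 2 ^ (e + 1 + k) := by rw [pow_add, pow_add]; ring
        _ ≤ 2 ^ u := pow_le_pow_right₀ (by norm_num) (by omega)
    linarith
  · calc 4 * L ^ A ≤ 4 * (2 ^ k) ^ A :=
          mul_le_mul_of_nonneg_left (pow_le_pow_left₀ hL0.le hk1 A) (by norm_num)
      _ = 2 ^ (2 + A * k) := by rw [pow_add, ← pow_mul, mul_comm k A]; norm_num
      _ ≤ 2 ^ u := pow_le_pow_right₀ (by norm_num) (by omega)
      _ ≤ _ := by linarith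

end Pool.Agent.V5helper29.EHS
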